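import Pool.Agent.Helper33.DefNum.Main

namespace Pool.Agent.Results.MP_0e4c8c_co.LatinUpper

open Pool.Agent.Helper33.DefNum

/-- Upper bounds for `k = 2n - s`: if `2s ∣ n` then
`d(K_n × K_n, 2n-s) ≤ n² - (n/s)(s² - ⌊s²/4⌋)`, and if `s` is odd then for all `n ≥ 6s`
`d(K_n × K_n, 2n-s) ≤ n² - ((n-4s)/s)(s² - ⌊s²/4⌋)`. -/
theorem result :
    (∀ s n : ℕ, 1 ≤ s → 1 ≤ n → 2 * s ∣ n →
      definingNumber (grid n) (2 * n - s) + n / s * (s ^ 2 - s ^ 2 / 4) ≤ n ^ 2) ∧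
    (∀ s n : ℕ, s % 2 = 1 → 6 * s ≤ n →
      s * definingNumber (grid n) (2 * n - s) + (n - 4 * s) * (s ^ 2 - s ^ 2 / 4) ≤ s * n ^ 2) := by
  refine ⟨?_, fun _ _ h1 h2 => border_latin h1 h2⟩
  rintro s n hs hn ⟨c, rfl⟩
  have h := product_latin (s := s) (m := 2 * c) hs (by omega)
    (by rcases Nat.eq_zero_or_pos c with rfl | h; · simp at hn
        · omega)
  have e : 2 * s * c = s * (2 * c) := by ring
  rw [e, Nat.mul_div_cancel_left _ hs]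
  exact h

end Pool.Agent.Results.MP_0e4c8c_co.LatinUpper
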