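import Pool.Agent.DQO.Main

namespace Pool.Agent.Results.MP_0e4c8c_co.QuadraticOrder

open Pool.Agent.Helper33.DefNum

/-- `d(K_n × K_n, k) ≥ n² / 10^86` for all `n ≥ 2` and all `n ≤ k ≤ 2n`. -/
theorem result : ∀ n k : ℕ, 2 ≤ n → n ≤ k → k ≤ 2 * n →
    n ^ 2 ≤ 10 ^ 86 * definingNumber (grid n) k :=
  fun _ _ hn h1 h2 => Pool.Agent.DQO.quad_order hn h1 h2

end Pool.Agent.Results.MP_0e4c8c_co.QuadraticOrder
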