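import Pool.Agent.D3T.Main

namespace Pool.Agent.Results.MP_0e4c8c_co.ThreeBelowTop

open Pool.Agent.Helper33.DefNum

/-- The case `k = 2n - 3`: `n² - 7n/3 ≤ d(K_n × K_n, 2n-3)` for all `n ≥ 3`,
`d(K_n × K_n, 2n-3) ≤ n² - 7n/3 + 28` for all `n ≥ 18`, and equality
`d = n² - 7n/3` whenever `6 ∣ n`. -/
theorem result :
    (∀ n : ℕ, 3 ≤ n → 3 * n ^ 2 ≤ 3 * definingNumber (grid n) (2 * n - 3) + 7 * n) ∧
    (∀ n : ℕ, 18 ≤ n → 3 * definingNumber (grid n) (2 * n - 3) + 7 * n ≤ 3 * n ^ 2 + 84) ∧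
    (∀ t : ℕ, 1 ≤ t →
      definingNumber (grid (6 * t)) (12 * t - 3) = 36 * t ^ 2 - 14 * t) :=
  ⟨fun _ h => Pool.Agent.D3T.lower3 h, fun _ h => Pool.Agent.D3T.upper3 h,
    fun _ h => Pool.Agent.D3T.exact3 h⟩

end Pool.Agent.Results.MP_0e4c8c_co.ThreeBelowTop
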