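import Pool.Agent.Helper33.DefNum.Main

namespace Pool.Agent.Results.MP_0e4c8c_co.TwoBelowTop

open Pool.Agent.Helper33.DefNum

/-- The case `k = 2n - 2`: `n² - 8n/5 ≤ d(K_n × K_n, 2n-2)` for all `n ≥ 2`,
`d(K_n × K_n, 2n-2) ≤ n² - 8n/5 + 32` for all `n ≥ 30`, and equality
`d = n² - 8n/5` whenever `10 ∣ n`. -/
theorem result :
    (∀ n : ℕ, 2 ≤ n → 5 * n ^ 2 ≤ 5 * definingNumber (grid n) (2 * n - 2) + 8 * n) ∧
    (∀ n : ℕ, 30 ≤ n → 5 * definingNumber (grid n) (2 * n - 2) + 8 * n ≤ 5 * n ^ 2 + 160) ∧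
    (∀ t : ℕ, 1 ≤ t →
      definingNumber (grid (10 * t)) (20 * t - 2) = 100 * t ^ 2 - 16 * t) :=
  ⟨fun _ h => tight_lower h, fun _ h => upper_two h, fun _ h => exact_ten h⟩

end Pool.Agent.Results.MP_0e4c8c_co.TwoBelowTop
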